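import Pool.Agent.R946.AP.Main
import Pool.Agent.R946.AP.Closed
import Pool.Agent.R946.AP.Area

/-!
# A `ℚ̄`-bi-algebraic curve in `S_(4,4,1,1,1,1)` without arithmetic points

The curve is formed by the pairs `(C_s, [ω_s])`, `C_s : Y⁴ = (4 - q²)(2q + 5)` with `q = r² + s`, and
`ω_s = r dr / Y³`.
-/

set_option autoImplicit false

namespace Pool.Agent.Results.MP_c0402d_ag.NoArithmeticPoint

open Pool.Agent.R946.AP

theorem result :
    -- the relative periods lie on a line defined over `K = ℚ(i, √2)`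
    (∃ Ω : ℂ, Ω ≠ 0 ∧ ∀ s Y₀ : ℂ, Y₀ ^ 4 = f s → Y₀ ≠ 0 → ∃ U : ℂ,
      ∀ (p q : Pt) (J : ℂ) (ℓ : ℝ), Path s p q J ℓ → (p = q ∨ (IsZero p ∧ IsZero q)) →
        ∃ α ∈ K, J = α * Ω + (weight Y₀ q - weight Y₀ p) * U) ∧
    -- no member defined over `ℚ̄` has its period line defined over `ℚ̄`
    (∀ s : ℂ, f s ≠ 0 → IsAlgebraic ℚ s →
      ¬ ∃ c : ℂ, ∀ J : ℂ, RelPeriod s J → ∃ α : ℂ, IsAlgebraic ℚ α ∧ J = α * c) ∧
    -- the family is closed: at its ends two zeros collide, while the area is constant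
    (∀ ε : ℝ, 0 < ε → ∃ T : Set ℂ, IsCompact T ∧ (∀ s ∈ T, f s ≠ 0) ∧ ∀ s : ℂ, f s ≠ 0 → s ∉ T →
      ∃ (p q : Pt) (J : ℂ) (ℓ : ℝ), p ≠ q ∧ IsZero p ∧ IsZero q ∧ Path s p q J ℓ ∧ ℓ < ε) ∧
    (∀ s : ℂ, area s = area 0) :=
  ⟨linear_family, fun _ hs halg => not_arith hs halg, fun _ hε => short_paths hε, area_eq⟩

end Pool.Agent.Results.MP_c0402d_ag.NoArithmeticPoint
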